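import Pool.Agent.H15.F8.Targets

/-!
# Project MP_f8d35d_nt, module N2: cubes in `ℚ(ω)` (class number one, by explicit descent)
-/

namespace F8

namespace N2

noncomputable section

/-- `u + v ω` -/
def e (u v : ℤ) : Qbar := (u : Qbar) + v * om
/-- `u + v ω²` -/
def eb (u v : ℤ) : Qbar := (u : Qbar) + v * om ^ 2
/-- `Z² Z̄` -/
def T (u v : ℤ) : Qbar := e u v ^ 2 * eb u v
/-- the norm -/
def Nm (u v : ℤ) : ℤ := u ^ 2 - u * v + v ^ 2

theorem e_mul (u v s t : ℤ) : e u v * e s t = e (u * s - v * t) (u * t + v * s - v * t) := by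
  unfold e; push_cast; linear_combination ((v : Qbar) * t) * om_spec

theorem eb_mul (u v s t : ℤ) :
    eb u v * eb s t = eb (u * s - v * t) (u * t + v * s - v * t) := by
  unfold eb; push_cast
  linear_combination ((v : Qbar) * t) * (om ^ 2 - om + 1) * om_spec

theorem e_mul_eb (u v : ℤ) : e u v * eb u v = (Nm u v : Qbar) := by
  unfold e eb Nm; push_cast
  linear_combination (u * v + (v : Qbar) ^ 2 * (om - 1)) * om_spec

theorem e_add_eb (u v : ℤ) : e u v + eb u v = ((2 * u - v : ℤ) : Qbar) := by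
  unfold e eb; push_cast
  linear_combination (v : Qbar) * om_spec

theorem eb_eq (u v : ℤ) : eb u v = e (u - v) (-v) := by
  unfold e eb; push_cast
  linear_combination (v : Qbar) * om_spec

theorem e_eq (u v : ℤ) : e u v = eb (u - v) (-v) := by
  unfold e eb; push_cast
  linear_combination (v : Qbar) * om_spec

theorem Nm_conj (u v : ℤ) : Nm (u - v) (-v) = Nm u v := by unfold Nm; ring

theorem Nm_mul (u v s t : ℤ) :
    Nm (u * s - v * t) (u * t + v * s - v * t) = Nm u v * Nm s t := by unfold Nm; ring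

theorem T_mul (u v s t : ℤ) :
    T (u * s - v * t) (u * t + v * s - v * t) = T u v * T s t := by
  unfold T; rw [← e_mul, ← eb_mul]; ring

theorem T_int_mul (n u v : ℤ) : T (n * u) (n * v) = T u v * (n : Qbar) ^ 3 := by
  unfold T e eb; push_cast; ring

/-! ### `Q(ω)` and the good elements -/

/-- elements of `ℚ(ω)` -/
def Qw (x : Qbar) : Prop := ∃ a b : ℚ, x = (a : Qbar) + b * om

theorem Qw.mul {x y : Qbar} (hx : Qw x) (hy : Qw y) : Qw (x * y) := by
  obtain ⟨a, b, rfl⟩ := hx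
  obtain ⟨c, d, rfl⟩ := hy
  refine ⟨a * c - b * d, a * d + b * c - b * d, ?_⟩
  push_cast
  linear_combination ((b : Qbar) * d) * om_spec

theorem Qw.one : Qw 1 := ⟨1, 0, by simp⟩

theorem Qw.om : Qw om := ⟨0, 1, by simp⟩

theorem Qw.rat (q : ℚ) : Qw (q : Qbar) := ⟨q, 0, by simp⟩

theorem Qw.int (q : ℤ) : Qw (q : Qbar) := ⟨q, 0, by simp⟩

theorem Qw.e (u v : ℤ) : Qw (e u v) := ⟨u, v, by simp [N2.e]⟩

theorem Qw.eb (u v : ℤ) : Qw (eb u v) := by rw [eb_eq]; exact Qw.e _ _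

theorem Qw.pow {x : Qbar} (hx : Qw x) (n : ℕ) : Qw (x ^ n) := by
  induction n with
  | zero => simpa using Qw.one
  | succ n ih => rw [pow_succ]; exact ih.mul hx

theorem Qw.neg {x : Qbar} (hx : Qw x) : Qw (-x) := by
  obtain ⟨a, b, rfl⟩ := hx
  exact ⟨-a, -b, by push_cast; ring⟩

theorem Qw.T (u v : ℤ) : Qw (T u v) := (Qw.pow (Qw.e u v) 2).mul (Qw.eb u v)

theorem Qw.ka13 : Qw ka13 := ⟨52, 39, by unfold F8.ka13; push_cast; ring⟩
theorem Qw.ka73 : Qw ka73 := ⟨73, 657, by unfold F8.ka73; push_cast; ring⟩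
theorem Qw.ka19 : Qw ka19 := ⟨-38, 57, by unfold F8.ka19; push_cast; ring⟩

/-- products of `ω`, `κ_p` and cubes -/
def Good (z : Qbar) : Prop := ∃ e x y c : ℕ, ∃ w, Qw w ∧
  z = om ^ e * ka13 ^ x * ka73 ^ y * ka19 ^ c * w ^ 3

theorem Good.mul {z z' : Qbar} (h : Good z) (h' : Good z') : Good (z * z') := by
  obtain ⟨e, x, y, c, w, hw, rfl⟩ := h
  obtain ⟨e', x', y', c', w', hw', rfl⟩ := h'
  refine ⟨e + e', x + x', y + y', c + c', w * w', hw.mul hw', ?_⟩
  ring

theorem Good.cube {w : Qbar} (hw : Qw w) : Good (w ^ 3) := ⟨0, 0, 0, 0, w, hw, by simp⟩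

theorem Good.final {z : Qbar} (h : Good z) :
    ∃ e x y c : ℕ, e < 3 ∧ x < 3 ∧ y < 3 ∧ c < 3 ∧ ∃ a' b' : ℚ,
    z = om ^ e * ka13 ^ x * ka73 ^ y * ka19 ^ c * (a' + b' * om) ^ 3 := by
  obtain ⟨e, x, y, c, w, hw, hz⟩ := h
  obtain ⟨a', b', hab⟩ : Qw (om ^ (e / 3) * ka13 ^ (x / 3) * ka73 ^ (y / 3) * ka19 ^ (c / 3) * w) :=
    ((((Qw.om.pow _).mul (Qw.ka13.pow _)).mul (Qw.ka73.pow _)).mul (Qw.ka19.pow _)).mul hw
  refine ⟨e % 3, x % 3, y % 3, c % 3, Nat.mod_lt _ (by norm_num), Nat.mod_lt _ (by norm_num),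
    Nat.mod_lt _ (by norm_num), Nat.mod_lt _ (by norm_num), a', b', ?_⟩
  rw [← hab, hz]
  have key : ∀ (g : Qbar) (n : ℕ), g ^ n = g ^ (n % 3) * (g ^ (n / 3)) ^ 3 := by
    intro g n
    rw [← pow_mul, ← pow_add]
    congr 1
    omega
  rw [key om e, key ka13 x, key ka73 y, key ka19 c]
  simp only [mul_pow]
  generalize (om ^ (e / 3)) ^ 3 = A1
  generalize (ka13 ^ (x / 3)) ^ 3 = A2
  generalize (ka73 ^ (y / 3)) ^ 3 = A3
  generalize (ka19 ^ (c / 3)) ^ 3 = A4
  generalize om ^ (e % 3) = B1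
  generalize ka13 ^ (x % 3) = B2
  generalize ka73 ^ (y % 3) = B3
  generalize ka19 ^ (c % 3) = B4
  ring

/-! ### Norms -/

section norms

variable {p : ℕ} [hp : Fact p.Prime] (i : Qbar →+* Om p)

theorem norm_int (n : ℤ) : ‖(n : Om p)‖ = ‖(n : ℚ_[p])‖ := by
  have := PadicAlgCl.norm_extends p (n : ℚ_[p])
  simpa using this

theorem norm_sub_le (x y : Om p) : ‖x - y‖ ≤ max ‖x‖ ‖y‖ := by
  rw [sub_eq_add_neg, ← norm_neg y]
  exact IsUltrametricDist.norm_add_le_max _ _

theorem norm_om : ‖i om‖ = 1 := by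
  have h : (i om) ^ 3 = 1 := by rw [← map_pow, om_cube, map_one]
  have h2 : ‖i om‖ ^ 3 = 1 := by rw [← norm_pow, h, norm_one]
  exact (pow_eq_one_iff_of_nonneg (norm_nonneg _) (by norm_num)).1 h2

theorem norm_map_int (n : ℤ) : ‖i (n : Qbar)‖ = ‖(n : ℚ_[p])‖ := by
  rw [map_intCast, norm_int]

theorem norm_e_le (u v : ℤ) : ‖i (e u v)‖ ≤ 1 := by
  unfold e
  rw [map_add, map_mul]
  refine (IsUltrametricDist.norm_add_le_max _ _).trans (max_le ?_ ?_)
  · rw [norm_map_int]; exact Padic.norm_int_le_one u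
  · rw [norm_mul, norm_om, mul_one, norm_map_int]; exact Padic.norm_int_le_one v

theorem norm_eb_le (u v : ℤ) : ‖i (eb u v)‖ ≤ 1 := by
  rw [eb_eq]; exact norm_e_le i _ _

theorem norm_e_mul (u v : ℤ) : ‖i (e u v)‖ * ‖i (eb u v)‖ = ‖(Nm u v : ℚ_[p])‖ := by
  rw [← norm_mul, ← map_mul, e_mul_eb, norm_map_int]

theorem norm_lt_iff (n : ℤ) : ‖i (n : Qbar)‖ < 1 ↔ (p : ℤ) ∣ n := by
  rw [norm_map_int]; exact Padic.norm_intCast_lt_one_iff

theorem div (s t u v : ℤ) (hst : Nm s t = p) (h1 : ‖i (e s t)‖ < 1) (h2 : ‖i (e u v)‖ < 1) :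
    ∃ u' v', u = s * u' - t * v' ∧ v = s * v' + t * u' - t * v' ∧ Nm u v = p * Nm u' v' := by
  have hp0 : (p : ℤ) ≠ 0 := by exact_mod_cast hp.out.ne_zero
  have d1 : (p : ℤ) ∣ v * s - u * t := by
    rw [← norm_lt_iff i]
    have e1 : ((v * s - u * t : ℤ) : Qbar) = (v : Qbar) * e s t - t * e u v := by
      unfold e; push_cast; ring
    rw [e1, map_sub, map_mul, map_mul]
    refine (norm_sub_le _ _).trans_lt (max_lt ?_ ?_)
    · rw [norm_mul, norm_map_int]
      exact mul_lt_one_of_nonneg_of_lt_one_right (Padic.norm_int_le_one v) (norm_nonneg _) h1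
    · rw [norm_mul, norm_map_int]
      exact mul_lt_one_of_nonneg_of_lt_one_right (Padic.norm_int_le_one t) (norm_nonneg _) h2
  have d2 : (p : ℤ) ∣ u * s - u * t + v * t := by
    rw [← norm_lt_iff i]
    have e1 : ((u * s - u * t + v * t : ℤ) : Qbar) =
        e u v * eb s t - ((v * s - u * t : ℤ) : Qbar) * om := by
      unfold e eb; push_cast
      linear_combination (-(v : Qbar) * t * (om - 1) - u * t) * om_spec
    rw [e1, map_sub, map_mul, map_mul]
    refine (norm_sub_le _ _).trans_lt (max_lt ?_ ?_)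
    · rw [norm_mul]
      exact mul_lt_one_of_nonneg_of_lt_one_left (norm_nonneg _) h2 (norm_eb_le i _ _)
    · rw [norm_mul, norm_om, mul_one, norm_lt_iff]
      exact d1
  obtain ⟨v', hv'⟩ := d1
  obtain ⟨u', hu'⟩ := d2
  have e1 : u = s * u' - t * v' := by
    apply mul_left_cancel₀ hp0
    rw [mul_sub]
    have : (p : ℤ) * (s * u') - p * (t * v') = s * (p * u') - t * (p * v') := by ring
    rw [this, ← hu', ← hv', ← hst]
    unfold Nm; ring
  have e2 : v = s * v' + t * u' - t * v' := by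
    apply mul_left_cancel₀ hp0
    have : (p : ℤ) * (s * v' + t * u' - t * v') = s * (p * v') + t * (p * u') - t * (p * v') := by
      ring
    rw [this, ← hu', ← hv', ← hst]
    unfold Nm; ring
  refine ⟨u', v', e1, e2, ?_⟩
  rw [← hst, ← Nm_mul, ← e1, ← e2]

theorem norm_prime (s t : ℤ) (hp3 : p % 3 = 1) (hst : Nm s t = p) (h1 : ‖i (e s t)‖ < 1) :
    ‖i (eb s t)‖ = 1 ∧ ‖i (e s t)‖ = (p : ℝ)⁻¹ := by
  have h := norm_e_mul i s t
  rw [hst, Int.cast_natCast, Padic.norm_p] at h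
  have h2 : ‖i (eb s t)‖ = 1 := by
    by_contra hne
    have h3 : ‖i (eb s t)‖ < 1 := lt_of_le_of_ne (norm_eb_le i _ _) hne
    have hpp : Prime (p : ℤ) := Nat.prime_iff_prime_int.1 hp.out
    have hp2 : p ≠ 2 := by rintro rfl; omega
    have hp3' : p ≠ 3 := by rintro rfl; omega
    have d1 : (p : ℤ) ∣ 2 * s - t := by
      rw [← norm_lt_iff i, ← e_add_eb, map_add]
      exact (IsUltrametricDist.norm_add_le_max _ _).trans_lt (max_lt h1 h3)
    have d2 : (p : ℤ) ∣ 3 * t ^ 2 := by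
      have : 3 * t ^ 2 = 4 * (p : ℤ) - (2 * s - t) * (2 * s - t) := by
        rw [← hst]; unfold Nm; ring
      rw [this]
      exact dvd_sub (dvd_mul_left _ _) (d1.mul_right _)
    have d3 : (p : ℤ) ∣ t := by
      rcases hpp.dvd_or_dvd d2 with h4 | h4
      · exfalso
        have : p ∣ 3 := by exact_mod_cast h4
        exact hp3' ((Nat.prime_dvd_prime_iff_eq hp.out Nat.prime_three).1 this)
      · exact hpp.dvd_of_dvd_pow h4
    have d4 : (p : ℤ) ∣ s := by
      have h5 : (p : ℤ) ∣ 2 * s := by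
        have := dvd_add d1 d3
        rwa [sub_add_cancel] at this
      rcases hpp.dvd_or_dvd h5 with h4 | h4
      · exfalso
        have : p ∣ 2 := by exact_mod_cast h4
        exact hp2 ((Nat.prime_dvd_prime_iff_eq hp.out Nat.prime_two).1 this)
      · exact h4
    obtain ⟨a, rfl⟩ := d4
    obtain ⟨b, rfl⟩ := d3
    have hp0 : (p : ℤ) ≠ 0 := by exact_mod_cast hp.out.ne_zero
    have h6 : (p : ℤ) * (Nm a b * p) = p * 1 := by
      rw [mul_one]
      nth_rewrite 3 [← hst]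
      unfold Nm; ring
    have h7 := mul_left_cancel₀ hp0 h6
    have h8 : (p : ℤ) ∣ 1 := ⟨Nm a b, by rw [mul_comm]; exact h7.symm⟩
    exact hpp.not_isUnit (isUnit_of_dvd_one h8)
  refine ⟨h2, ?_⟩
  rw [h2, mul_one] at h
  exact h

end norms

theorem exists_conj : ∃ s : Gam, s om = om ^ 2 := by
  by_contra hcon
  push Not at hcon
  have h : ∀ s : Gam, s om = om := fun s => by
    rcases gam_om s with h | h
    · exact h
    · exact absurd h (hcon s)
  obtain ⟨q, hq⟩ := fix_rat om h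
  have h2 := om_spec
  rw [hq] at h2
  have h3 : q ^ 2 + q + 1 = 0 := by exact_mod_cast h2
  nlinarith [sq_nonneg (q + 1 / 2)]

theorem conj_emb {p : ℕ} [Fact p.Prime] (i : Qbar →+* Om p) : ∃ i' : Qbar →+* Om p,
    (∀ u v, i' (e u v) = i (eb u v)) ∧ (∀ u v, i' (eb u v) = i (e u v)) := by
  obtain ⟨s, hs⟩ := exists_conj
  refine ⟨i.comp (s : Qbar →+* Qbar), fun u v => ?_, fun u v => ?_⟩
  · change i (s (e u v)) = _
    congr 1
    unfold e eb
    rw [map_add, map_mul, hs, map_intCast, map_intCast]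
  · change i (s (eb u v)) = _
    congr 1
    unfold e eb
    rw [map_add, map_mul, map_pow, hs, map_intCast, map_intCast]
    have : (om ^ 2) ^ 2 = om := by linear_combination om * om_cube
    rw [this]

/-! ### Local conditions -/

/-- the local condition away from `13, 73, 19` -/
def Loc (z : Qbar) : Prop := ∀ (p : ℕ) [Fact p.Prime], p % 3 = 1 → p ≠ 13 → p ≠ 73 → p ≠ 19 →
  ∀ i : Qbar →+* Om p, ∃ n : ℤ, ‖i z‖ = (p : ℝ) ^ (3 * n)

/-- integral valuations -/
def V (z : Qbar) : Prop := ∀ (p : ℕ) [Fact p.Prime], p % 3 = 1 →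
  ∀ i : Qbar →+* Om p, ∃ n : ℤ, ‖i z‖ = (p : ℝ) ^ n

theorem V.mul {z z' : Qbar} (h : V z) (h' : V z') : V (z * z') := by
  intro p hp h3 i
  obtain ⟨n, hn⟩ := h p h3 i
  obtain ⟨n', hn'⟩ := h' p h3 i
  have hp0 : (p : ℝ) ≠ 0 := by exact_mod_cast hp.out.ne_zero
  exact ⟨n + n', by rw [map_mul, norm_mul, hn, hn', zpow_add₀ hp0]⟩

theorem V.cube {z : Qbar} (h : V z) : Loc (z ^ 3) := by
  intro p hp h3 _ _ _ i
  obtain ⟨n, hn⟩ := h p h3 i
  refine ⟨n, ?_⟩
  rw [map_pow, norm_pow, hn, ← zpow_natCast, ← zpow_mul]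
  congr 1
  push_cast
  ring

theorem Loc.cancel {z y : Qbar} (h : Loc (z * y)) (h' : Loc y) : Loc z := by
  intro p hp h3 a1 a2 a3 i
  obtain ⟨n, hn⟩ := h p h3 a1 a2 a3 i
  obtain ⟨n', hn'⟩ := h' p h3 a1 a2 a3 i
  have hp0 : (p : ℝ) ≠ 0 := by exact_mod_cast hp.out.ne_zero
  refine ⟨n - n', ?_⟩
  rw [map_mul, norm_mul, hn'] at hn
  rw [mul_sub, zpow_sub₀ hp0, ← hn, mul_div_assoc, div_self (zpow_ne_zero _ hp0), mul_one]

theorem V.int (n : ℤ) (hn : n ≠ 0) : V (n : Qbar) := by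
  intro p hp h3 i
  rw [norm_map_int]
  have : (n : ℚ_[p]) ≠ 0 := by exact_mod_cast hn
  exact ⟨_, Padic.norm_eq_zpow_neg_valuation this⟩

theorem V.rat (q : ℚ) (hq : q ≠ 0) : V (q : Qbar) := by
  intro p hp h3 i
  have e1 : ‖i (q : Qbar)‖ = ‖(q : ℚ_[p])‖ := by
    have := PadicAlgCl.norm_extends p (q : ℚ_[p])
    rw [map_ratCast]
    simpa using this
  rw [e1]
  have : (q : ℚ_[p]) ≠ 0 := by exact_mod_cast hq
  exact ⟨_, Padic.norm_eq_zpow_neg_valuation this⟩

/-- an element of norm prime to `p` is a unit at `p` -/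
theorem norm_unit {p : ℕ} [Fact p.Prime] (i : Qbar →+* Om p) (s t : ℤ)
    (h : ‖(Nm s t : ℚ_[p])‖ = 1) : ‖i (e s t)‖ = 1 ∧ ‖i (eb s t)‖ = 1 := by
  have h0 := norm_e_mul i s t
  rw [h] at h0
  have h1 := norm_e_le i s t
  have h2 := norm_eb_le i s t
  have h3 := norm_nonneg (i (e s t))
  have h4 := norm_nonneg (i (eb s t))
  constructor
  · apply le_antisymm h1
    nlinarith
  · apply le_antisymm h2
    nlinarith

theorem norm_prime_ne {p q : ℕ} [hp : Fact p.Prime] (hq : q.Prime) (hne : p ≠ q) :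
    ‖(((q : ℤ)) : ℚ_[p])‖ = 1 := by
  rw [Padic.norm_intCast_eq_one_iff, Int.isCoprime_iff_gcd_eq_one]
  have := (Nat.coprime_primes hq hp.out).2 (Ne.symm hne)
  exact this

theorem V_prime (q : ℕ) (hq : q.Prime) (s t : ℤ) (h : Nm s t = q) : V (e s t) ∧ V (eb s t) := by
  have main : ∀ (p : ℕ) [Fact p.Prime], p % 3 = 1 → ∀ i : Qbar →+* Om p,
      (∃ n : ℤ, ‖i (e s t)‖ = (p : ℝ) ^ n) ∧ (∃ n : ℤ, ‖i (eb s t)‖ = (p : ℝ) ^ n) := by
    intro p hp h3 i
    by_cases hpq : p = q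
    · subst hpq
      by_cases h1 : ‖i (e s t)‖ < 1
      · obtain ⟨h4, h5⟩ := norm_prime i s t h3 h h1
        exact ⟨⟨-1, by rw [h5]; simp⟩, ⟨0, by rw [h4]; simp⟩⟩
      · have h1' : ‖i (e s t)‖ = 1 := le_antisymm (norm_e_le i _ _) (not_lt.1 h1)
        have h6 := norm_e_mul i s t
        rw [h1', one_mul, h, Int.cast_natCast, Padic.norm_p] at h6
        exact ⟨⟨0, by rw [h1']; simp⟩, ⟨-1, by rw [h6]; simp⟩⟩
    · obtain ⟨h4, h5⟩ := norm_unit i s t (by rw [h]; exact norm_prime_ne hq hpq)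
      exact ⟨⟨0, by rw [h4]; simp⟩, ⟨0, by rw [h5]; simp⟩⟩
  exact ⟨fun p hp h3 i => (main p h3 i).1, fun p hp h3 i => (main p h3 i).2⟩

theorem V_T (q : ℕ) (hq : q.Prime) (s t : ℤ) (h : Nm s t = q) : V (T s t) := by
  obtain ⟨h1, h2⟩ := V_prime q hq s t h
  unfold T
  rw [pow_two]
  exact (h1.mul h1).mul h2

theorem Loc_T (q : ℕ) (hq : q.Prime) (s t : ℤ) (h : Nm s t = q)
    (hex : q % 3 = 1 → q = 13 ∨ q = 73 ∨ q = 19) : Loc (T s t) := by
  intro p hp h3 a1 a2 a3 i
  have hpq : p ≠ q := by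
    rintro rfl
    rcases hex h3 with h | h | h <;> omega
  obtain ⟨h4, h5⟩ := norm_unit i s t (by rw [h]; exact norm_prime_ne hq hpq)
  refine ⟨0, ?_⟩
  unfold T
  rw [map_mul, map_pow, norm_mul, norm_pow, h4, h5]
  simp

/-! ### Representation of primes `1 mod 3` -/

theorem thue (p : ℕ) [hp : Fact p.Prime] (h3 : p % 3 = 1) : ∃ s t : ℤ, Nm s t = p := by
  have hp1 : 1 < p := hp.out.one_lt
  -- a primitive cube root of unity
  obtain ⟨x, hx⟩ : ∃ x : ZMod p, x ^ 2 + x + 1 = 0 := by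
    have hcard : 3 ∣ Fintype.card (ZMod p)ˣ := by
      rw [ZMod.card_units]
      omega
    have : Fact (Nat.Prime 3) := ⟨Nat.prime_three⟩
    obtain ⟨g, hg⟩ := exists_prime_orderOf_dvd_card 3 hcard
    have hg3 : (g : ZMod p) ^ 3 = 1 := by
      have := pow_orderOf_eq_one g
      rw [hg] at this
      have h' := congrArg Units.val this
      simpa using h'
    have hg1 : (g : ZMod p) ≠ 1 := by
      intro h
      have : g = 1 := Units.ext h
      rw [this, orderOf_one] at hg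
      norm_num at hg
    refine ⟨g, ?_⟩
    have h4 : ((g : ZMod p) - 1) * ((g : ZMod p) ^ 2 + g + 1) = 0 := by
      linear_combination hg3
    rcases mul_eq_zero.1 h4 with h | h
    · exact absurd (sub_eq_zero.1 h) hg1
    · exact h
  set k := Nat.sqrt p with hk
  have hk1 : k * k < p := by
    have h1 : k * k ≤ p := Nat.sqrt_le p
    have h2 : k * k ≠ p := by
      intro h
      have h5 : k ∣ p := ⟨k, h.symm⟩
      rcases (Nat.dvd_prime hp.out).1 h5 with h6 | h6
      · rw [h6] at h; omega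
      · rw [h6] at h
        nlinarith
    omega
  have hk2 : p < (k + 1) * (k + 1) := Nat.lt_succ_sqrt p
  -- pigeonhole
  obtain ⟨⟨a, b⟩, hab, ⟨a', b'⟩, hab', hne, heq⟩ :
      ∃ y ∈ Finset.range (k + 1) ×ˢ Finset.range (k + 1),
      ∃ z ∈ Finset.range (k + 1) ×ˢ Finset.range (k + 1), y ≠ z ∧
        (fun q : ℕ × ℕ => (q.1 : ZMod p) - x * q.2) y = (fun q : ℕ × ℕ => (q.1 : ZMod p) - x * q.2) z := by
    apply Finset.exists_ne_map_eq_of_card_lt_of_maps_to (t := (Finset.univ : Finset (ZMod p)))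
    · rw [Finset.card_univ, ZMod.card, Finset.card_product, Finset.card_range]
      exact hk2
    · intro _ _
      simp
  simp only [Finset.mem_product, Finset.mem_range] at hab hab'
  simp only at heq
  -- the small vector
  set s : ℤ := (a : ℤ) - a' with hs
  set t : ℤ := (b' : ℤ) - b with ht
  have hst0 : ¬ (s = 0 ∧ t = 0) := by
    rintro ⟨h1, h2⟩
    apply hne
    have : a = a' := by omega
    have : b = b' := by omega
    simp [*]
  have hsx : (s : ZMod p) = -(x * t) := by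
    rw [hs, ht]; push_cast
    linear_combination heq
  have hdvd : (p : ℤ) ∣ Nm s t := by
    rw [← ZMod.intCast_zmod_eq_zero_iff_dvd]
    unfold Nm
    push_cast
    rw [hsx]
    linear_combination (t : ZMod p) ^ 2 * hx
  have hs1 : |s| ≤ k := by rw [abs_le]; omega
  have ht1 : |t| ≤ k := by rw [abs_le]; omega
  have hpos : 0 < Nm s t := by
    unfold Nm
    by_cases h : t = 0
    · have : s ≠ 0 := fun h' => hst0 ⟨h', h⟩
      have := sq_pos_of_ne_zero this
      rw [h]; nlinarith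
    · have := sq_pos_of_ne_zero h
      nlinarith [sq_nonneg (2 * s - t)]
  have hlt : Nm s t < 3 * p := by
    have h1 : s ^ 2 ≤ (k : ℤ) ^ 2 := sq_le_sq' (by linarith [(abs_le.1 hs1).1]) (abs_le.1 hs1).2
    have h2 : t ^ 2 ≤ (k : ℤ) ^ 2 := sq_le_sq' (by linarith [(abs_le.1 ht1).1]) (abs_le.1 ht1).2
    have h4 : -(s * t) ≤ (k : ℤ) ^ 2 := by nlinarith [sq_nonneg (s + t)]
    have h5 : (k : ℤ) * k < p := by exact_mod_cast hk1
    unfold Nm
    nlinarith
  obtain ⟨m, hm⟩ := hdvd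
  have hp0 : (0 : ℤ) < p := by exact_mod_cast hp.out.pos
  have hm1 : 0 < m := by
    by_contra h
    push Not at h
    nlinarith
  have hm3 : m < 3 := by
    by_contra h
    push Not at h
    nlinarith
  have hm12 : m = 1 ∨ m = 2 := by omega
  rcases hm12 with h | h
  · exact ⟨s, t, by rw [hm, h, mul_one]⟩
  · exfalso
    rw [h] at hm
    have hpodd : p % 2 = 1 := by
      rcases hp.out.eq_two_or_odd with h | h
      · rw [h] at h3; omega
      · exact h
    -- `s`, `t` both even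
    have hs2 : s % 2 = 0 ∧ t % 2 = 0 := by
      have h6 : Nm s t % 2 = 0 := by rw [hm]; omega
      unfold Nm at h6
      rcases Int.emod_two_eq_zero_or_one s with h7 | h7 <;>
      rcases Int.emod_two_eq_zero_or_one t with h8 | h8
      · exact ⟨h7, h8⟩
      all_goals
        exfalso
        obtain ⟨s', hs'⟩ : ∃ s', s = 2 * s' + s % 2 := ⟨s / 2, by omega⟩
        obtain ⟨t', ht'⟩ : ∃ t', t = 2 * t' + t % 2 := ⟨t / 2, by omega⟩
        rw [h7] at hs'
        rw [h8] at ht'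
        rw [hs', ht'] at h6
        ring_nf at h6
        omega
    obtain ⟨s', hs'⟩ : ∃ s', s = 2 * s' := ⟨s / 2, by omega⟩
    obtain ⟨t', ht'⟩ : ∃ t', t = 2 * t' := ⟨t / 2, by omega⟩
    have h9 : 4 * Nm s' t' = p * 2 := by
      rw [← hm, hs', ht']; unfold Nm; ring
    omega

/-! ### Small primes -/

theorem Good.one : Good 1 := by simpa using Good.cube Qw.one

theorem good_om : Good om := ⟨1, 0, 0, 0, 1, Qw.one, by ring⟩

theorem om4 : om ^ 4 = om := by linear_combination om * om_cube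

theorem good_T_unit (u v : ℤ) (h : Nm u v = 1) : Good (T u v) := by
  have hv : |v| ≤ 1 := by
    unfold Nm at h
    rw [abs_le]
    constructor <;> nlinarith [sq_nonneg (2 * u - v)]
  have hu : |u| ≤ 1 := by
    unfold Nm at h
    rw [abs_le]
    constructor <;> nlinarith [sq_nonneg (2 * v - u)]
  obtain ⟨v1, v2⟩ := abs_le.1 hv
  obtain ⟨u1, u2⟩ := abs_le.1 hu
  -- the unit `om ^ k`, up to sign
  have key : ∀ (k : ℕ) (c : ℤ), (c = 1 ∨ c = -1) → T u v = om ^ k * (c : Qbar) ^ 3 →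
      Good (T u v) := fun k c _ h => ⟨k, 0, 0, 0, c, Qw.int c, by rw [h]; ring⟩
  unfold Nm at h
  have h5 := om_spec
  interval_cases u <;> interval_cases v <;> first
    | (exfalso; revert h; norm_num; done)
    | (refine key 0 1 (Or.inl rfl) ?_; unfold T e eb; push_cast; linear_combination 0 * h5)
    | (refine key 0 (-1) (Or.inr rfl) ?_; unfold T e eb; push_cast; linear_combination 0 * h5)
    | (refine key 1 1 (Or.inl rfl) ?_; unfold T e eb; push_cast; linear_combination om4)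
    | (refine key 1 (-1) (Or.inr rfl) ?_; unfold T e eb; push_cast; linear_combination -om4)
    | (refine key 2 1 (Or.inl rfl) ?_; unfold T e eb; push_cast
       linear_combination -(om ^ 2 + om + 1) * h5)
    | (refine key 2 (-1) (Or.inr rfl) ?_; unfold T e eb; push_cast
       linear_combination (om ^ 2 + om + 1) * h5)

theorem good_T3 : Good (T 1 (-1)) := by
  refine ⟨2, 0, 0, 0, e (-1) 1, Qw.e _ _, ?_⟩
  unfold T e eb
  push_cast
  linear_combination (1 - om) ^ 3 * om_spec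

theorem good_ka13 : Good ka13 := ⟨0, 1, 0, 0, 1, Qw.one, by ring⟩
theorem good_ka73 : Good ka73 := ⟨0, 0, 1, 0, 1, Qw.one, by ring⟩
theorem good_ka19 : Good ka19 := ⟨0, 0, 0, 1, 1, Qw.one, by ring⟩

theorem T_eq (s t q : ℤ) (h : Nm s t = q) : T s t = q * e s t := by
  have h1 := e_mul_eb s t
  rw [h] at h1
  unfold T
  linear_combination e s t * h1

theorem T_eq' (s t q : ℤ) (hq : q ≠ 0) (h : Nm s t = q) :
    T (s - t) (-t) = (q * e s t) ^ 2 * (eb s t * ((1 / q : ℚ) : Qbar)) ^ 3 := by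
  have h1 := e_mul_eb s t
  rw [h] at h1
  have hq' : (q : Qbar) ≠ 0 := by exact_mod_cast hq
  unfold T
  rw [← eb_eq, ← e_eq]
  push_cast
  field_simp
  linear_combination (-(eb s t) ^ 2 * e s t) * h1

theorem special_aux (s t q : ℤ) (hq : q ≠ 0) (h : Nm s t = q) (hg : Good (q * e s t)) :
    Good (T s t) ∧ Good (T (s - t) (-t)) := by
  constructor
  · rw [T_eq s t q h]; exact hg
  · rw [T_eq' s t q hq h, pow_two]
    exact (hg.mul hg).mul (Good.cube ((Qw.eb s t).mul (Qw.rat _)))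

/-- the two prime elements above `p` at the special primes -/
theorem special (p : ℕ) (h : p = 13 ∨ p = 73 ∨ p = 19) : ∃ s t : ℤ, Nm s t = p ∧
    Good (T s t) ∧ Good (T (s - t) (-t)) := by
  rcases h with rfl | rfl | rfl
  · refine ⟨4, 3, by norm_num [Nm], special_aux 4 3 13 (by norm_num) (by norm_num [Nm]) ?_⟩
    convert good_ka13 using 1
    unfold e ka13; push_cast; ring
  · refine ⟨1, 9, by norm_num [Nm], special_aux 1 9 73 (by norm_num) (by norm_num [Nm]) ?_⟩
    convert good_ka73 using 1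
    unfold e ka73; push_cast; ring
  · refine ⟨-2, 3, by norm_num [Nm], special_aux (-2) 3 19 (by norm_num) (by norm_num [Nm]) ?_⟩
    convert good_ka19 using 1
    unfold e ka19; push_cast; ring

/-- inert primes -/
theorem inert (p : ℕ) [hp : Fact p.Prime] (h3 : p % 3 = 2) (u v : ℤ) (h : (p : ℤ) ∣ Nm u v) :
    (p : ℤ) ∣ u ∧ (p : ℤ) ∣ v := by
  have hpp : Prime (p : ℤ) := Nat.prime_iff_prime_int.1 hp.out
  have hv : (p : ℤ) ∣ v := by
    by_contra hv
    have hv0 : (v : ZMod p) ≠ 0 := by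
      rwa [Ne, ZMod.intCast_zmod_eq_zero_iff_dvd]
    have h0 : (u : ZMod p) ^ 2 - u * v + (v : ZMod p) ^ 2 = 0 := by
      have h1 := (ZMod.intCast_zmod_eq_zero_iff_dvd (Nm u v) p).2 h
      unfold Nm at h1
      push_cast at h1
      exact h1
    set x : ZMod p := -(u / v) with hx
    have hx2 : x ^ 2 + x + 1 = 0 := by
      rw [hx]
      field_simp
      linear_combination h0
    have hx3 : x ^ 3 = 1 := by linear_combination (x - 1) * hx2
    have hx0 : x ≠ 0 := by
      intro h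
      rw [h] at hx2
      norm_num at hx2
    have hfl := ZMod.pow_card_sub_one_eq_one hx0
    obtain ⟨k, hk⟩ : ∃ k, p - 1 = 3 * k + 1 := ⟨(p - 2) / 3, by omega⟩
    rw [hk, pow_succ, pow_mul, hx3, one_pow, one_mul] at hfl
    rw [hfl] at hx2
    have h4 : ((3 : ℕ) : ZMod p) = 0 := by push_cast; linear_combination hx2
    rw [ZMod.natCast_eq_zero_iff] at h4
    have := (Nat.prime_dvd_prime_iff_eq hp.out Nat.prime_three).1 h4
    omega
  refine ⟨?_, hv⟩
  have : (p : ℤ) ∣ u ^ 2 := by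
    have e1 : u ^ 2 = Nm u v + v * (u - v) := by unfold Nm; ring
    rw [e1]
    exact dvd_add h (hv.mul_right _)
  exact hpp.dvd_of_dvd_pow this

theorem Nm_nonneg (u v : ℤ) : 0 ≤ Nm u v := by
  unfold Nm; nlinarith [sq_nonneg (2 * u - v), sq_nonneg v]

theorem exists_emb (p : ℕ) [Fact p.Prime] : ∃ _ : Qbar →+* Om p, True :=
  ⟨(IsAlgClosed.lift (R := ℚ) (S := Qbar) (M := Om p)).toRingHom, trivial⟩

/-- an embedding and a prime element adapted to `Z = u + v ω` -/
theorem choose_emb (p : ℕ) [hp : Fact p.Prime] (u v s t : ℤ) (h : (p : ℤ) ∣ Nm u v)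
    (hst : Nm s t = p) : ∃ i : Qbar →+* Om p, ‖i (e u v)‖ < 1 ∧
    ∃ s' t' : ℤ, Nm s' t' = p ∧ ‖i (e s' t')‖ < 1 ∧
      ((s' = s ∧ t' = t) ∨ (s' = s - t ∧ t' = -t)) := by
  obtain ⟨i, hi⟩ : ∃ i : Qbar →+* Om p, ‖i (e u v)‖ < 1 := by
    obtain ⟨i, -⟩ := exists_emb p
    by_cases h1 : ‖i (e u v)‖ < 1
    · exact ⟨i, h1⟩
    · have h1' : ‖i (e u v)‖ = 1 := le_antisymm (norm_e_le i _ _) (not_lt.1 h1)
      have h6 := norm_e_mul i u v
      rw [h1', one_mul] at h6
      obtain ⟨i', hi', -⟩ := conj_emb i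
      refine ⟨i', ?_⟩
      rw [hi', h6, Padic.norm_intCast_lt_one_iff]
      exact h
  refine ⟨i, hi, ?_⟩
  by_cases h1 : ‖i (e s t)‖ < 1
  · exact ⟨s, t, hst, h1, Or.inl ⟨rfl, rfl⟩⟩
  · have h1' : ‖i (e s t)‖ = 1 := le_antisymm (norm_e_le i _ _) (not_lt.1 h1)
    have h6 := norm_e_mul i s t
    rw [h1', one_mul, hst] at h6
    refine ⟨s - t, -t, by rw [Nm_conj, hst], ?_, Or.inr ⟨rfl, rfl⟩⟩
    rw [← eb_eq, h6, Padic.norm_intCast_lt_one_iff]

theorem zpow_ne_one {p : ℕ} (hp : 1 < p) {a b : ℤ} (h : (p : ℝ) ^ a = (p : ℝ) ^ b) : a = b := by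
  have h1 : (1 : ℝ) < p := by exact_mod_cast hp
  exact (zpow_right_injective₀ (by linarith) (by linarith)) h

/-- the descent -/
theorem main : ∀ n : ℕ, ∀ u v : ℤ, (Nm u v).toNat = n → Nm u v ≠ 0 → Loc (T u v) →
    Good (T u v) := by
  intro n
  induction n using Nat.strong_induction_on with
  | _ n ih =>
  intro u v hn h0 hloc
  have hpos : 0 < Nm u v := lt_of_le_of_ne (Nm_nonneg u v) (Ne.symm h0)
  by_cases hn1 : n = 1
  · exact good_T_unit u v (by omega)
  have hp : n.minFac.Prime := Nat.minFac_prime hn1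
  have hfact : Fact n.minFac.Prime := ⟨hp⟩
  have hdvd : (n.minFac : ℤ) ∣ Nm u v := by
    have h1 : (n : ℤ) = Nm u v := by omega
    rw [← h1]
    exact_mod_cast n.minFac_dvd
  generalize hpe : n.minFac = p at hp hfact hdvd
  have hp1 : 1 < p := hp.one_lt
  have hpp0 : (0 : ℤ) < p := by exact_mod_cast hp.pos
  -- a reduction step
  have step : ∀ (a b : ℤ) (m : ℤ), 1 < m → Nm u v = m * Nm a b → ∀ y, T u v = T a b * y → Good y →
      Loc y → Good (T u v) := by
    intro a b m hm hmul y hy hgy hly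
    have h1 : Nm a b ≠ 0 := by
      rintro h1
      rw [h1, mul_zero] at hmul
      exact h0 hmul
    have h2 : 0 < Nm a b := lt_of_le_of_ne (Nm_nonneg a b) (Ne.symm h1)
    have h3 : Nm a b < Nm u v := by rw [hmul]; nlinarith
    rw [hy]
    refine Good.mul (ih (Nm a b).toNat (by omega) a b rfl h1 ?_) hgy
    rw [hy] at hloc
    exact hloc.cancel hly
  have hmod : p % 3 = 0 ∨ p % 3 = 1 ∨ p % 3 = 2 := by omega
  rcases hmod with hmod | hmod | hmod
  · -- p = 3
    have hp3 : p = 3 := by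
      have : 3 ∣ p := Nat.dvd_of_mod_eq_zero hmod
      exact ((Nat.prime_dvd_prime_iff_eq Nat.prime_three hp).1 this).symm
    subst hp3
    have h4 : (3 : ℤ) ∣ (u + v) ^ 2 := by
      have e1 : (u + v) ^ 2 = Nm u v + 3 * (u * v) := by unfold Nm; ring
      rw [e1]
      exact dvd_add (by exact_mod_cast hdvd) (dvd_mul_right _ _)
    have h5 : (3 : ℤ) ∣ u + v := Int.prime_three.dvd_of_dvd_pow h4
    obtain ⟨t', ht'⟩ := h5
    have e1 : u = 1 * (u - t') - (-1) * t' := by ring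
    have e2 : v = 1 * t' + (-1) * (u - t') - (-1) * t' := by linarith
    refine step (u - t') t' 3 (by norm_num) ?_ (T 1 (-1)) ?_ good_T3
      (Loc_T 3 Nat.prime_three 1 (-1) (by norm_num [Nm]) (by norm_num))
    · have := Nm_mul 1 (-1) (u - t') t'
      rw [← e1, ← e2] at this
      rw [this]; norm_num [Nm]
    · have := T_mul 1 (-1) (u - t') t'
      rw [← e1, ← e2] at this
      rw [this, mul_comm]
  · -- split
    by_cases hsp : p = 13 ∨ p = 73 ∨ p = 19
    · obtain ⟨s, t, hst, hg1, hg2⟩ := special p hsp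
      obtain ⟨i, hi, s', t', hst', hi', hor⟩ := choose_emb p u v s t hdvd hst
      obtain ⟨u', v', e1, e2, e3⟩ := div i s' t' u v hst' hi' hi
      refine step u' v' p (by exact_mod_cast hp1) e3 (T s' t') ?_ ?_
        (Loc_T p hp s' t' hst' (fun _ => hsp))
      · rw [e2, e1, T_mul, mul_comm]
      · rcases hor with ⟨rfl, rfl⟩ | ⟨rfl, rfl⟩
        · exact hg1
        · exact hg2
    · push Not at hsp
      obtain ⟨s, t, hst⟩ := thue p hmod
      obtain ⟨i, hi, s', t', hst', hi', -⟩ := choose_emb p u v s t hdvd hst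
      clear hst s t
      obtain ⟨u', v', e1, e2, e3⟩ := div i s' t' u v hst' hi' hi
      obtain ⟨n1, n2⟩ := norm_prime i s' t' hmod hst' hi'
      have hT1 : T u v = T s' t' * T u' v' := by
        rw [← T_mul]
        rw [e2, e1]
      have he1 : e u v = e s' t' * e u' v' := by
        rw [e_mul, e2, e1]
      have heb1 : eb u v = eb s' t' * eb u' v' := by
        rw [eb_mul, e2, e1]
      by_cases hbar : ‖i (eb u v)‖ < 1
      · -- `p ∣ Z`
        obtain ⟨i', hi1, hi2⟩ := conj_emb i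
        have h6 : ‖i' (e u' v')‖ < 1 := by
          rw [hi1]
          rw [heb1, map_mul, norm_mul, n1, one_mul] at hbar
          exact hbar
        have h7 : ‖i' (e (s' - t') (-t'))‖ < 1 := by
          rw [← eb_eq, hi2]
          exact hi'
        obtain ⟨u'', v'', f1, f2, f3⟩ := div i' (s' - t') (-t') u' v'
          (by rw [Nm_conj, hst']) h7 h6
        have g1 : u = p * u'' := by
          rw [e1, f1, f2, ← hst']; unfold Nm; ring
        have g2 : v = p * v'' := by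
          rw [e2, f1, f2, ← hst']; unfold Nm; ring
        refine step u'' v'' (p * p) (by nlinarith) ?_ (((p : ℤ) : Qbar) ^ 3) ?_
          (Good.cube (Qw.int _)) ((V.int _ (by omega)).cube)
        · rw [e3, f3]; ring
        · rw [g1, g2, T_int_mul]
      · have hbar' : ‖i (eb u v)‖ = 1 := le_antisymm (norm_eb_le i _ _) (not_lt.1 hbar)
        obtain ⟨k, hk⟩ := hloc p hmod hsp.1 hsp.2.1 hsp.2.2 i
        have hk2 : ‖i (e u v)‖ ^ 2 = (p : ℝ) ^ (3 * k) := by
          rw [← hk]; unfold T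
          rw [map_mul, map_pow, norm_mul, norm_pow, hbar', mul_one]
        have h8 : ‖i (e u' v')‖ < 1 := by
          by_contra hcon
          have hcon' : ‖i (e u' v')‖ = 1 := le_antisymm (norm_e_le i _ _) (not_lt.1 hcon)
          rw [he1, map_mul, norm_mul, n2, hcon', mul_one, ← zpow_neg_one, ← zpow_natCast,
            ← zpow_mul] at hk2
          have := zpow_ne_one hp1 hk2
          push_cast at this
          omega
        obtain ⟨u'', v'', f1, f2, f3⟩ := div i s' t' u' v' hst' hi' h8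
        have hT2 : T u' v' = T s' t' * T u'' v'' := by
          rw [← T_mul]
          rw [f2, f1]
        have he2 : e u' v' = e s' t' * e u'' v'' := by
          rw [e_mul, f2, f1]
        have h9 : ‖i (e u'' v'')‖ < 1 := by
          by_contra hcon
          have hcon' : ‖i (e u'' v'')‖ = 1 := le_antisymm (norm_e_le i _ _) (not_lt.1 hcon)
          rw [he1, he2, map_mul, map_mul, norm_mul, norm_mul, n2, hcon', mul_one, ← pow_two,
            ← pow_mul, ← zpow_neg_one, ← zpow_natCast, ← zpow_mul] at hk2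
          have := zpow_ne_one hp1 hk2
          push_cast at this
          omega
        obtain ⟨a, b, l1, l2, l3⟩ := div i s' t' u'' v'' hst' hi' h9
        have hT3 : T u'' v'' = T s' t' * T a b := by
          rw [← T_mul]
          rw [l2, l1]
        refine step a b (p * (p * p)) (by nlinarith) ?_ ((T s' t') ^ 3) ?_
          (Good.cube (Qw.T _ _)) ((V_T p hp s' t' hst').cube)
        · rw [e3, f3, l3]; ring
        · rw [hT1, hT2, hT3]; ring
  · -- inert
    obtain ⟨⟨u', hu'⟩, ⟨v', hv'⟩⟩ := inert p hmod u v hdvd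
    refine step u' v' (p * p) (by nlinarith) ?_ (((p : ℤ) : Qbar) ^ 3) ?_
          (Good.cube (Qw.int _)) ((V.int _ (by omega)).cube)
    · rw [hu', hv']; unfold Nm; ring
    · rw [hu', hv', T_int_mul]

end

end N2

/-- **N2** (unique factorisation in `ℤ[ω]`) -/
theorem eisStmt : EisStmt := by
  intro a b hab hr hloc
  obtain ⟨r, hr⟩ := hr
  -- clear denominators
  set m : ℤ := (a.den : ℤ) * b.den with hm
  have hda : (a.den : ℚ) ≠ 0 := by exact_mod_cast a.den_ne_zero
  have hdb : (b.den : ℚ) ≠ 0 := by exact_mod_cast b.den_ne_zero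
  have hm0 : (m : ℚ) ≠ 0 := by
    rw [hm]; push_cast; exact mul_ne_zero hda hdb
  obtain ⟨u, hu⟩ : ∃ u : ℤ, (u : ℚ) = m ^ 3 * a := by
    refine ⟨m ^ 2 * (a.num * b.den), ?_⟩
    have h1 : (a.num : ℚ) = a.den * a := by
      rw [mul_comm]; exact (Rat.mul_den_eq_num a).symm
    rw [hm]; push_cast; rw [h1]; ring
  obtain ⟨v, hv⟩ : ∃ v : ℤ, (v : ℚ) = m ^ 3 * b := by
    refine ⟨m ^ 2 * (b.num * a.den), ?_⟩
    have h1 : (b.num : ℚ) = b.den * b := by
      rw [mul_comm]; exact (Rat.mul_den_eq_num b).symm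
    rw [hm]; push_cast; rw [h1]; ring
  have hN : ((N2.Nm u v : ℤ) : ℚ) = (m ^ 2 * r) ^ 3 := by
    unfold N2.Nm
    push_cast
    rw [hu, hv]
    linear_combination (m : ℚ) ^ 6 * hr
  have hr0 : r ≠ 0 := by
    intro h
    apply hab
    rw [h] at hr
    have h1 : a ^ 2 - a * b + b ^ 2 = 0 := by rw [hr]; ring
    have h2 : b = 0 := by
      have : b ^ 2 ≤ 0 := by nlinarith [sq_nonneg (2 * a - b)]
      exact pow_eq_zero_iff (two_ne_zero) |>.1 (le_antisymm this (sq_nonneg b))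
    have h3 : a = 0 := by
      rw [h2] at h1
      have : a ^ 2 = 0 := by linarith
      exact pow_eq_zero_iff (two_ne_zero) |>.1 this
    exact ⟨h3, h2⟩
  have hN0 : N2.Nm u v ≠ 0 := by
    intro h
    rw [h] at hN
    push_cast at hN
    have : ((m : ℚ) ^ 2 * r) ^ 3 ≠ 0 := pow_ne_zero _ (mul_ne_zero (pow_ne_zero _ hm0) hr0)
    exact this hN.symm
  -- the relation between `a + b ω` and `Z² Z̄`
  set c : ℚ := m * (m ^ 2 * r) with hc
  have hc0 : c ≠ 0 := mul_ne_zero hm0 (mul_ne_zero (pow_ne_zero _ hm0) hr0)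
  have hT : N2.T u v = ((a : Qbar) + b * om) * ((c : ℚ) : Qbar) ^ 3 := by
    have h1 : N2.T u v = N2.e u v * ((N2.Nm u v : ℤ) : Qbar) := by
      rw [← N2.e_mul_eb]; unfold N2.T; ring
    have h2 : ((N2.Nm u v : ℤ) : Qbar) = (((m ^ 2 * r) ^ 3 : ℚ) : Qbar) := by
      rw [← hN]; push_cast; rfl
    have h3 : N2.e u v = (((m : ℚ) ^ 3 : ℚ) : Qbar) * ((a : Qbar) + b * om) := by
      unfold N2.e
      have h4 : (u : Qbar) = (((m : ℚ) ^ 3 * a : ℚ) : Qbar) := by rw [← hu]; push_cast; rfl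
      have h5 : (v : Qbar) = (((m : ℚ) ^ 3 * b : ℚ) : Qbar) := by rw [← hv]; push_cast; rfl
      rw [h4, h5]; push_cast; ring
    rw [h1, h2, h3, hc]; push_cast; ring
  have hlocT : N2.Loc (N2.T u v) := by
    intro p hp h3 a1 a2 a3 i
    obtain ⟨n, hn⟩ := hloc p h3 a1 a2 a3 i
    obtain ⟨k, hk⟩ := N2.V.rat c hc0 p h3 i
    have hp0 : (p : ℝ) ≠ 0 := by exact_mod_cast hp.out.ne_zero
    refine ⟨n + k, ?_⟩
    rw [hT, map_mul, map_pow, norm_mul, norm_pow, hn, hk, ← zpow_natCast, ← zpow_mul,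
      ← zpow_add₀ hp0]
    congr 1
    push_cast
    ring
  have hg := N2.main _ u v rfl hN0 hlocT
  have hcc : ((c : ℚ) : Qbar) ≠ 0 := by exact_mod_cast hc0
  have hg2 : N2.Good ((a : Qbar) + b * om) := by
    have h1 : (a : Qbar) + b * om = N2.T u v * (((1 / c : ℚ) : ℚ) : Qbar) ^ 3 := by
      rw [hT]; push_cast; field_simp
    rw [h1]
    exact hg.mul (N2.Good.cube (N2.Qw.rat _))
  exact hg2.final

end F8
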