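import Pool.Agent.H15.F8.Targets

/-!
# Project MP_f8d35d_nt, module W2: the `3`-torsion points and the character `eta`
-/

open WeierstrassCurve WeierstrassCurve.Affine

namespace F8

namespace W2

variable {A : Type} [Field A] [DecidableEq A] [Algebra ℚ A]

/-- the tangent computation -/
theorem three_iff (T : Pt A) (hT : T ≠ 0) :
    (3 : ℕ) • T = 0 ↔ (2 * yc T + 2 * xc T - 949 ≠ 0 ∧
      (3 * xc T ^ 2 + 2 * xc T - 949) ^ 2 =
        (1 + 3 * xc T) * (2 * yc T + 2 * xc T - 949) ^ 2) := by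
  have hA : CharZero A := algebraRat.charZero A
  match T, hT with
  | 0, h => exact absurd rfl h
  | .some x y hn, _ =>
    have hcurve := (nonsingular_iff' x y).1 hn
    simp only [xc_some, yc_some]
    have hnegY : (E⁄A).negY x y = -y - 2 * x + 949 := by
      simp only [Affine.negY, E, WeierstrassCurve.baseChange,
        WeierstrassCurve.map_a₁, WeierstrassCurve.map_a₃, map_neg, map_ofNat]
      ring
    have h3 : (3 : ℕ) • (Point.some x y hn : Pt A) = 0 ↔
        (Point.some x y hn : Pt A) + Point.some x y hn = -Point.some x y hn := by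
      rw [show (3 : ℕ) = 2 + 1 from rfl, add_nsmul, two_nsmul, one_nsmul, add_eq_zero_iff_eq_neg]
    rw [h3]
    by_cases hD : 2 * y + 2 * x - 949 = 0
    · have hy : y = (E⁄A).negY x y := by rw [hnegY]; linear_combination hD
      have h4 : (Point.some x y hn : Pt A) + Point.some x y hn = 0 :=
        Point.add_self_of_Y_eq hy
      rw [h4]
      constructor
      · intro h
        exact absurd (neg_eq_zero.1 h.symm) (Point.some_ne_zero _)
      · rintro ⟨h, -⟩
        exact absurd hD h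
    · have hy : y ≠ (E⁄A).negY x y := by
        rw [hnegY]; intro h; exact hD (by linear_combination h)
      have h4 := Point.add_self_of_Y_ne (W := (E⁄A)) (h₁ := hn) hy
      rw [h4]
      have hsl : (E⁄A).slope x x y y = (3 * x ^ 2 - 2 * y) / (2 * y + 2 * x - 949) := by
        rw [Affine.slope_of_Y_ne rfl hy, hnegY]
        congr 1
        · simp only [E, WeierstrassCurve.baseChange, WeierstrassCurve.map_a₁,
            WeierstrassCurve.map_a₂, WeierstrassCurve.map_a₄, map_zero, map_ofNat]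
          ring
        · ring
      obtain ⟨l, hl⟩ : ∃ l, (E⁄A).slope x x y y = l := ⟨_, rfl⟩
      have hlD : l * (2 * y + 2 * x - 949) = 3 * x ^ 2 - 2 * y := by
        rw [← hl, hsl, div_mul_cancel₀ _ hD]
      have hX : (E⁄A).addX x x l = l ^ 2 + 2 * l - 2 * x := by
        simp only [Affine.addX]
        simp only [E, WeierstrassCurve.baseChange, WeierstrassCurve.map_a₁,
            WeierstrassCurve.map_a₂, map_zero, map_ofNat]
        ring
      constructor
      · intro h
        refine ⟨hD, ?_⟩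
        have hx := congrArg xc h
        rw [xc_neg] at hx
        simp only [xc_some, hl, hX] at hx
        linear_combination (2 * y + 2 * x - 949) ^ 2 * hx -
          (3 * x ^ 2 - 2 * y + l * (2 * y + 2 * x - 949) + 2 * (2 * y + 2 * x - 949)) * hlD
      · rintro ⟨-, h⟩
        have hx : l ^ 2 + 2 * l - 2 * x = x := by
          apply mul_left_cancel₀ (pow_ne_zero 2 hD)
          linear_combination h +
          (3 * x ^ 2 - 2 * y + l * (2 * y + 2 * x - 949) + 2 * (2 * y + 2 * x - 949)) * hlD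
        refine pt_ext (Point.some_ne_zero _) (neg_ne_zero.2 (Point.some_ne_zero _)) ?_ ?_
        · rw [xc_neg]; simp only [xc_some, hl, hX]; exact hx
        · rw [yc_neg _ (Point.some_ne_zero _)]
          simp only [yc_some, xc_some, Affine.addY, Affine.negAddY, hl, hX]
          rw [hx, sub_self, mul_zero, zero_add, hnegY]

/-- the `3`-division polynomial (up to the factor `x`) -/
theorem psi_of_three (T : Pt A) (h : (3 : ℕ) • T = 0) (hx : xc T ≠ 0) :
    3 * xc T ^ 3 + 4 * xc T ^ 2 - 5694 * xc T + 2701803 = 0 := by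
  have hT : T ≠ 0 := by rintro rfl; exact hx rfl
  obtain ⟨-, h2⟩ := (three_iff T hT).1 h
  have e := pt_eqn T hT
  apply mul_left_cancel₀ hx
  linear_combination -h2 - 4 * (1 + 3 * xc T) * e

theorem three_of_psi (T : Pt A) (hx : xc T ≠ 0)
    (h : 3 * xc T ^ 3 + 4 * xc T ^ 2 - 5694 * xc T + 2701803 = 0) : (3 : ℕ) • T = 0 := by
  have hT : T ≠ 0 := by rintro rfl; exact hx rfl
  have hA : CharZero A := algebraRat.charZero A
  have e := pt_eqn T hT
  have h2 : (3 * xc T ^ 2 + 2 * xc T - 949) ^ 2 =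
        (1 + 3 * xc T) * (2 * yc T + 2 * xc T - 949) ^ 2 := by
    linear_combination - xc T * h - 4 * (1 + 3 * xc T) * e
  rw [three_iff T hT]
  refine ⟨?_, h2⟩
  intro hD
  rw [hD] at h2
  have e1 : 3 * xc T ^ 2 + 2 * xc T - 949 = 0 := by
    have : (3 * xc T ^ 2 + 2 * xc T - 949) ^ 2 = 0 := by rw [h2]; ring
    exact pow_eq_zero_iff (two_ne_zero) |>.1 this
  have e2 : 4 * xc T ^ 3 + (2 * xc T - 949) ^ 2 = 0 := by
    linear_combination (2 * yc T + 2 * xc T - 949) * hD - 4 * e
  -- resultants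
  generalize xc T = x at *
  have e3 : 22784 * x = 8109205 := by linear_combination -(9 * e2 - (12 * x + 4) * e1)
  have e4 : 14239 * x = 8107307 := by linear_combination -(3 * h - (3 * x + 2) * e1)
  have e5 : (14239 : A) * 8109205 = 22784 * 8107307 := by
    linear_combination -14239 * e3 + 22784 * e4
  norm_num at e5

theorem two_x_ne (T : Pt A) (h : (3 : ℕ) • T = 0) (hx : xc T ≠ 0) : 2 * xc T - 2847 ≠ 0 := by
  have hA : CharZero A := algebraRat.charZero A
  have h1 := psi_of_three T h hx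
  intro h2
  have h3 : (2 * xc T - 2847) ^ 3 = 25631 * xc T ^ 3 := by
    linear_combination (-8541) * h1
  rw [h2] at h3
  apply hx
  have : (25631 : A) ≠ 0 := by norm_num
  have h4 : xc T ^ 3 = 0 := by
    apply mul_left_cancel₀ this
    rw [← h3]; ring
  exact pow_eq_zero_iff (three_ne_zero) |>.1 h4

theorem eta_def (T : Pt A) (hx : xc T ≠ 0) :
    eta T = (2 * xc T + 3 * yc T) / (2 * xc T - 2847) := by
  unfold eta; rw [if_neg hx]

theorem eta_quad (T : Pt A) (h : (3 : ℕ) • T = 0) (hx : xc T ≠ 0) :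
    eta T ^ 2 + eta T + 1 = 0 := by
  have h1 := psi_of_three T h hx
  have h2 := two_x_ne T h hx
  have hT : T ≠ 0 := by rintro rfl; exact hx rfl
  have e := pt_eqn T hT
  have h3 : eta T * (2 * xc T - 2847) = 2 * xc T + 3 * yc T := by
    rw [eta_def T hx, div_mul_cancel₀ _ h2]
  apply mul_left_cancel₀ (pow_ne_zero 2 h2)
  linear_combination (eta T * (2 * xc T - 2847) + (2 * xc T + 3 * yc T) + (2 * xc T - 2847)) * h3 +
    3 * h1 + 9 * e

omit [DecidableEq A] in
theorem Dl_mul (T : Pt A) (hx : xc T ≠ 0) : Dl T * xc T = 2 * xc T - 2847 := by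
  unfold Dl; rw [div_mul_cancel₀ _ hx]

theorem Dl_cube (T : Pt A) (h : (3 : ℕ) • T = 0) (hx : xc T ≠ 0) : Dl T ^ 3 = 25631 := by
  have h1 := psi_of_three T h hx
  have h2 := Dl_mul T hx
  apply mul_left_cancel₀ (pow_ne_zero 3 hx)
  have h3 : (2 * xc T - 2847) ^ 3 = 25631 * xc T ^ 3 := by
    linear_combination (-8541) * h1
  have h4 : xc T ^ 3 * Dl T ^ 3 = (Dl T * xc T) ^ 3 := by ring
  rw [h4, h2, h3]; ring

/-- `(2 - d) x = 2847` -/
theorem xc_Dl (T : Pt A) (hx : xc T ≠ 0) : (2 - Dl T) * xc T = 2847 := by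
  have := Dl_mul T hx
  linear_combination -this

/-- `3 y = x (ε d - 2)` -/
theorem yc_Dl (T : Pt A) (h : (3 : ℕ) • T = 0) (hx : xc T ≠ 0) :
    3 * yc T = xc T * (eta T * Dl T - 2) := by
  have h2 := two_x_ne T h hx
  have h3 : eta T * (2 * xc T - 2847) = 2 * xc T + 3 * yc T := by
    rw [eta_def T hx, div_mul_cancel₀ _ h2]
  have h4 := Dl_mul T hx
  linear_combination -h3 - eta T * h4

theorem eta_one_iff (T : Pt A) (h : (3 : ℕ) • T = 0) : eta T = 1 ↔ xc T = 0 := by
  have hA : CharZero A := algebraRat.charZero A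
  constructor
  · intro h1
    by_contra hx
    have h2 := eta_quad T h hx
    rw [h1] at h2
    norm_num at h2
  · intro h1
    unfold eta
    rw [if_pos h1]

theorem uniq (T T' : Pt A) (h : (3 : ℕ) • T = 0) (h' : (3 : ℕ) • T' = 0) (hx : xc T ≠ 0)
    (hx' : xc T' ≠ 0) (he : eta T = eta T') (hd : Dl T = Dl T') : T = T' := by
  have hA : CharZero A := algebraRat.charZero A
  have h1 := xc_Dl T hx
  have h2 := xc_Dl T' hx'
  have h3 := yc_Dl T h hx
  have h4 := yc_Dl T' h' hx'
  have hT : T ≠ 0 := by rintro rfl; exact hx rfl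
  have hT' : T' ≠ 0 := by rintro rfl; exact hx' rfl
  have h5 : (2 - Dl T) ≠ 0 := by
    intro h0
    rw [h0, zero_mul] at h1
    norm_num at h1
  have h6 : xc T = xc T' := by
    apply mul_left_cancel₀ h5
    rw [h1]; nth_rewrite 1 [hd]; rw [h2]
  have h7 : yc T = yc T' := by
    apply mul_left_cancel₀ (three_ne_zero : (3 : A) ≠ 0)
    rw [h3, h4, h6, he, hd]
  exact pt_ext hT hT' h6 h7

theorem three_neg (T : Pt A) (h : (3 : ℕ) • T = 0) : (3 : ℕ) • (-T) = 0 := by
  rw [smul_neg, h, neg_zero]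

theorem three_add (T T' : Pt A) (h : (3 : ℕ) • T = 0) (h' : (3 : ℕ) • T' = 0) :
    (3 : ℕ) • (T + T') = 0 := by rw [smul_add, h, h', add_zero]

theorem eta_neg (T : Pt A) (h : (3 : ℕ) • T = 0) (hx : xc T ≠ 0) : eta (-T) = eta T ^ 2 := by
  have hT : T ≠ 0 := by rintro rfl; exact hx rfl
  have h2 := two_x_ne T h hx
  have h3 : eta T * (2 * xc T - 2847) = 2 * xc T + 3 * yc T := by
    rw [eta_def T hx, div_mul_cancel₀ _ h2]
  have h4 := eta_quad T h hx
  rw [eta_def (-T) (by rw [xc_neg]; exact hx), xc_neg, yc_neg T hT, div_eq_iff h2]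
  linear_combination -(2 * xc T - 2847) * h4 + h3

omit [DecidableEq A] in
theorem Dl_neg (T : Pt A) : Dl (-T) = Dl T := by unfold Dl; rw [xc_neg]

/-- translation by `P` -/
theorem trans (hAP : AddPStmt) (w : A) (hw : w ^ 2 + w + 1 = 0) (T : Pt A)
    (h : (3 : ℕ) • T = 0) (hx : xc T ≠ 0) :
    xc (T + PT) ≠ 0 ∧ eta (T + PT) = eta T ∧ Dl (T + PT) = eta T ^ 2 * Dl T := by
  have hA : CharZero A := algebraRat.charZero A
  have hT : T ≠ 0 := by rintro rfl; exact hx rfl
  have e := pt_eqn T hT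
  have hy : yc T ≠ 0 := by
    intro h0
    rw [h0] at e
    apply hx
    have : xc T ^ 3 = 0 := by linear_combination -e
    exact pow_eq_zero_iff (three_ne_zero) |>.1 this
  obtain ⟨h1, -, h2⟩ := hAP A T hx
  have h949 : (949 : A) ≠ 0 := by norm_num
  have hxs : xc (T + PT) ≠ 0 := by
    rw [h1]
    exact div_ne_zero (mul_ne_zero h949 hy) (pow_ne_zero 2 hx)
  have h3 : (3 : ℕ) • (T + PT) = 0 := three_add _ _ h three_PT
  -- `β_w(R) / x(R) = (1 - w)(η - w) Δ / 3`
  have hbet : ∀ R : Pt A, (3 : ℕ) • R = 0 → xc R ≠ 0 → ∀ w : A, w ^ 2 + w + 1 = 0 →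
      3 * (bet w R / xc R) = (1 - w) * (eta R - w) * Dl R := by
    intro R hR hxR w hw
    have k1 := xc_Dl R hxR
    have k2 := yc_Dl R hR hxR
    rw [← mul_div_assoc, div_eq_iff hxR]
    unfold bet
    linear_combination (1 - w) * k2 - (w * (1 - w)) * k1 - 2 * xc R * hw
  have hDne : ∀ R : Pt A, (3 : ℕ) • R = 0 → xc R ≠ 0 → Dl R ≠ 0 := by
    intro R hR hxR h0
    have := Dl_cube R hR hxR
    rw [h0] at this
    norm_num at this
  have hw1 : (1 - w) ≠ 0 := by
    intro h0
    have : w = 1 := by linear_combination -h0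
    rw [this] at hw
    norm_num at hw
  have hwq : ∀ z : A, z ^ 2 + z + 1 = 0 → z = w ∨ z = w ^ 2 := by
    intro z hz
    have : (z - w) * (z - w ^ 2) = 0 := by
      linear_combination hz - (z - w + 1) * hw
    rcases mul_eq_zero.1 this with h | h
    · left; linear_combination h
    · right; linear_combination h
  have hw2 : (w ^ 2) ^ 2 + w ^ 2 + 1 = 0 := by linear_combination (w ^ 2 - w + 1) * hw
  have hw21 : (1 - w ^ 2) ≠ 0 := by
    intro h0
    have h5 : w = - 2 := by linear_combination hw + h0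
    rw [h5] at hw
    norm_num at hw
  -- `eta (T + P) = eta T`
  have key : ∀ v : A, v ^ 2 + v + 1 = 0 → 1 - v ≠ 0 → eta T = v → eta (T + PT) = v := by
    intro v hv hv1 hTv
    have k1 := h2 v hv
    have k2 := hbet T h hx v hv
    have k3 := hbet (T + PT) h3 hxs v hv
    rw [hTv, sub_self, mul_zero, zero_mul] at k2
    have k4 : bet v T / xc T = 0 := by
      rcases mul_eq_zero.1 k2 with h | h
      · exact absurd h three_ne_zero
      · exact h
    rw [k1, k4, mul_zero, mul_zero] at k3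
    rcases mul_eq_zero.1 k3.symm with h | h
    · rcases mul_eq_zero.1 h with h | h
      · exact absurd h hv1
      · linear_combination h
    · exact absurd h (hDne _ h3 hxs)
  have hquad := eta_quad T h hx
  have heta : eta (T + PT) = eta T := by
    rcases hwq (eta T) hquad with h5 | h5
    · rw [key w hw hw1 h5, h5]
    · rw [key (w ^ 2) hw2 hw21 h5, h5]
  refine ⟨hxs, heta, ?_⟩
  -- `Dl (T + P) = 2 - 3 x ^ 2 / y`
  have k1 := xc_Dl (T + PT) hxs
  have k2 := xc_Dl T hx
  have k3 := yc_Dl T h hx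
  have k4 := Dl_cube T h hx
  have h6 : xc (T + PT) * xc T ^ 2 = 949 * yc T := by
    rw [h1, div_mul_cancel₀ _ (pow_ne_zero 2 hx)]
  -- (2 - D') * 949 y = 2847 x ^ 2
  have h7 : (2 - Dl (T + PT)) * yc T = 3 * xc T ^ 2 := by
    apply mul_left_cancel₀ h949
    linear_combination -(2 - Dl (T + PT)) * h6 + xc T ^ 2 * k1
  -- (2 - D') (ε d - 2) = 9 x
  have h8 : (2 - Dl (T + PT)) * (eta T * Dl T - 2) = 9 * xc T := by
    apply mul_left_cancel₀ hx
    linear_combination 3 * h7 - (2 - Dl (T + PT)) * k3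
  have h9 : (2 - Dl T) ≠ 0 := by
    intro h0
    rw [h0, zero_mul] at k2
    norm_num at k2
  have h10 : (eta T * Dl T - 2) ≠ 0 := by
    intro h0
    rw [h0, mul_zero] at k3
    exact hy (by
      rcases mul_eq_zero.1 k3 with h | h
      · exact absurd h three_ne_zero
      · exact h)
  apply mul_left_cancel₀ h10
  apply mul_left_cancel₀ h9
  linear_combination -(2 - Dl T) * h8 - 9 * k2 + k4 +
    (2 * Dl T * (2 - Dl T) - Dl T ^ 2 * (eta T - 1) * (2 - Dl T)) * hquad


theorem cube_roots (w z : A) (hw : w ^ 2 + w + 1 = 0) (hz : z ^ 3 = 1) :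
    z = 1 ∨ z = w ∨ z = w ^ 2 := by
  have : (z - 1) * ((z - w) * (z - w ^ 2)) = 0 := by
    linear_combination hz + (-z ^ 2 - z * w + z * w ^ 2 + z * w + w - 1) * hw * 0
      - (z - 1) * (z - w + 1) * hw
  rcases mul_eq_zero.1 this with h | h
  · left; linear_combination h
  rcases mul_eq_zero.1 h with h | h
  · right; left; linear_combination h
  · right; right; linear_combination h

/-- points with the same `eta` differ by a multiple of `P` -/
theorem same_eta (hAP : AddPStmt) (w : A) (hw : w ^ 2 + w + 1 = 0) (T T' : Pt A)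
    (h : (3 : ℕ) • T = 0) (h' : (3 : ℕ) • T' = 0) (hx : xc T ≠ 0) (hx' : xc T' ≠ 0)
    (he : eta T = eta T') : T' = T ∨ T' = T + PT ∨ T' = T + PT + PT := by
  have hA : CharZero A := algebraRat.charZero A
  obtain ⟨a1, a2, a3⟩ := trans hAP w hw T h hx
  have h3 : (3 : ℕ) • (T + PT) = 0 := three_add _ _ h three_PT
  obtain ⟨b1, b2, b3⟩ := trans hAP w hw (T + PT) h3 a1
  have h4 : (3 : ℕ) • (T + PT + PT) = 0 := three_add _ _ h3 three_PT
  have hq := eta_quad T h hx
  have hd := Dl_cube T h hx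
  have hd' := Dl_cube T' h' hx'
  have hd0 : Dl T ≠ 0 := by
    intro h0; rw [h0] at hd; norm_num at hd
  have hz : (Dl T' / Dl T) ^ 3 = 1 := by
    rw [div_pow, hd, hd', div_self (by norm_num)]
  rcases cube_roots (eta T) (Dl T' / Dl T) hq hz with h5 | h5 | h5
  · left
    rw [div_eq_iff hd0, one_mul] at h5
    exact uniq T' T h' h hx' hx he.symm h5
  · right; right
    rw [div_eq_iff hd0] at h5
    refine uniq _ _ h' h4 hx' b1 (by rw [b2, a2, he]) ?_
    rw [b3, a2, a3, h5]
    linear_combination -(eta T * Dl T) * (eta T - 1) * hq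
  · right; left
    rw [div_eq_iff hd0] at h5
    refine uniq _ _ h' h3 hx' a1 (by rw [a2, he]) ?_
    rw [a3, h5]

theorem eta_of_zero (n : Pt A) (h : xc n = 0) : eta n = 1 := by unfold eta; rw [if_pos h]

theorem xc_PTs : xc (PT + PT : Pt A) = 0 := by rw [PT_add_PT, xc_neg, xc_PT]

/-- `eta (T + P) = eta T` for every `3`-torsion point -/
theorem eta_add_PT (hAP : AddPStmt) (w : A) (hw : w ^ 2 + w + 1 = 0) (T : Pt A)
    (h : (3 : ℕ) • T = 0) : eta (T + PT) = eta T := by
  by_cases hx : xc T = 0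
  · rw [eta_of_zero T hx]
    apply eta_of_zero
    rcases (xc_eq_zero_iff T).1 hx with h1 | h1 | h1
    · rw [h1, zero_add, xc_PT]
    · rw [h1, xc_PTs]
    · rw [h1, neg_add_cancel, xc_zero]
  · exact (trans hAP w hw T h hx).2.1

/-- multiplicativity for points outside `⟨P⟩` -/
theorem eta_add (hAP : AddPStmt) (w : A) (hw : w ^ 2 + w + 1 = 0) (T T' : Pt A)
    (h : (3 : ℕ) • T = 0) (h' : (3 : ℕ) • T' = 0) : eta (T + T') = eta T * eta T' := by
  have hA : CharZero A := algebraRat.charZero A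
  -- adding an element of `⟨P⟩`
  have hP : ∀ S S' : Pt A, (3 : ℕ) • S' = 0 → xc S = 0 → eta (S' + S) = eta S' := by
    intro S S' hS' hS
    rcases (xc_eq_zero_iff S).1 hS with h1 | h1 | h1
    · rw [h1, add_zero]
    · rw [h1]; exact eta_add_PT hAP w hw S' hS'
    · rw [h1, ← PT_add_PT, ← add_assoc,
        eta_add_PT hAP w hw (S' + PT) (three_add _ _ hS' three_PT),
        eta_add_PT hAP w hw S' hS']
  by_cases hx : xc T = 0
  · rw [eta_of_zero T hx, one_mul, add_comm]
    exact hP T T' h' hx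
  by_cases hx' : xc T' = 0
  · rw [eta_of_zero T' hx', mul_one]
    exact hP T' T h hx'
  have hq := eta_quad T h hx
  have hq' := eta_quad T' h' hx'
  have hcube : eta T ^ 3 = 1 := by linear_combination (eta T - 1) * hq
  have hor : eta T' = eta T ∨ eta T' = eta T ^ 2 := by
    have : (eta T' - eta T) * (eta T' - eta T ^ 2) = 0 := by
      linear_combination hq' - (eta T' - eta T + 1) * hq
    rcases mul_eq_zero.1 this with h | h
    · left; linear_combination h
    · right; linear_combination h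
  rcases hor with h5 | h5
  · -- `T' = T + nP`, `T + T' = 2T + nP = -T + nP`
    have h2T : T + T = -T := by
      have h6 := h
      rw [show (3 : ℕ) = 2 + 1 from rfl, add_nsmul, two_nsmul, one_nsmul,
        add_eq_zero_iff_eq_neg] at h6
      exact h6
    have h7 : eta (-T) = eta T ^ 2 := eta_neg T h hx
    have h3n := three_neg T h
    rw [h5]
    rcases same_eta hAP w hw T T' h h' hx hx' h5.symm with h8 | h8 | h8
    · rw [h8, h2T, h7]; ring
    · rw [h8, ← add_assoc, h2T, eta_add_PT hAP w hw _ h3n, h7]; ring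
    · rw [h8, ← add_assoc, ← add_assoc, h2T,
        eta_add_PT hAP w hw _ (three_add _ _ h3n three_PT), eta_add_PT hAP w hw _ h3n, h7]; ring
  · -- `T' = -T + nP`
    have h7 : eta (-T) = eta T ^ 2 := eta_neg T h hx
    have h3n := three_neg T h
    have h9 : eta T * eta T' = 1 := by rw [h5]; linear_combination hcube
    rw [h9]
    rcases same_eta hAP w hw (-T) T' h3n h' (by rw [xc_neg]; exact hx) hx' (by rw [h7, h5])
      with h8 | h8 | h8
    · rw [h8, add_neg_cancel, eta_zero]
    · rw [h8, ← add_assoc, add_neg_cancel, zero_add, eta_PT]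
    · rw [h8, ← add_assoc, ← add_assoc, add_neg_cancel, zero_add]
      exact eta_of_zero _ xc_PTs

/-- existence -/
theorem exists_pt (w : A) (hw : w ^ 2 + w + 1 = 0) (d : A) (hd : d ^ 3 = 25631) :
    ∃ T : Pt A, (3 : ℕ) • T = 0 ∧ eta T = w ∧ Dl T = d := by
  have hA : CharZero A := algebraRat.charZero A
  have h1 : 2 - d ≠ 0 := by
    intro h0
    have : d = 2 := by linear_combination -h0
    rw [this] at hd; norm_num at hd
  obtain ⟨x, hx⟩ : ∃ x : A, (2 - d) * x = 2847 := ⟨2847 / (2 - d), mul_div_cancel₀ _ h1⟩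
  have hx0 : x ≠ 0 := by
    rintro rfl
    rw [mul_zero] at hx
    norm_num at hx
  have hd0 : d ≠ 0 := by
    rintro rfl
    norm_num at hd
  obtain ⟨y, hy⟩ : ∃ y : A, 3 * y = x * (w * d - 2) :=
    ⟨x * (w * d - 2) / 3, mul_div_cancel₀ _ three_ne_zero⟩
  -- `9 x = (w d - 2)(2 - w² d)`
  have h2 : 9 * x = (w * d - 2) * (2 - w ^ 2 * d) := by
    apply mul_left_cancel₀ h1
    linear_combination 9 * hx - hd + (d ^ 2 * (w - 1) * (2 - d) - 2 * d * (2 - d)) * hw
  have hcurve : y ^ 2 + 2 * x * y - 949 * y = x ^ 3 := by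
    have h27 : (9 : A) ≠ 0 := by norm_num
    apply mul_left_cancel₀ h27
    linear_combination (3 * y + x * (w * d - 2) + 6 * x - 2847) * hy + x * (w * d - 2) * hx +
      x ^ 2 * (w * d - 2) * d * hw - x ^ 2 * h2
  have hpsi : 3 * x ^ 3 + 4 * x ^ 2 - 5694 * x + 2701803 = 0 := by
    have h3 : (-8541 : A) ≠ 0 := by norm_num
    apply mul_left_cancel₀ h3
    linear_combination ((2 * x - 2847) ^ 2 + (2 * x - 2847) * (d * x) + (d * x) ^ 2) * hx +
      x ^ 3 * hd
  have hn := (nonsingular_iff' x y).2 hcurve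
  refine ⟨.some x y hn, three_of_psi _ (by rw [xc_some]; exact hx0) (by rw [xc_some]; exact hpsi),
    ?_, ?_⟩
  · rw [eta_def _ (by rw [xc_some]; exact hx0)]
    simp only [xc_some, yc_some]
    have h4 : 2 * x - 2847 = d * x := by linear_combination hx
    rw [h4, div_eq_iff (mul_ne_zero hd0 hx0), hy]
    ring
  · unfold Dl
    simp only [xc_some]
    rw [div_eq_iff hx0]
    linear_combination hx

end W2

/-- module W2 -/
theorem etaStmt (hAP : AddPStmt) : EtaStmt := by
  intro A _ _ _ w hw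
  have hA : CharZero A := algebraRat.charZero A
  have hxne : ∀ T : Pt A, (3 : ℕ) • T = 0 → eta T ≠ 1 → xc T ≠ 0 :=
    fun T h h1 h0 => h1 ((W2.eta_one_iff T h).2 h0)
  refine ⟨fun T h => ?_, fun T T' h h' => W2.eta_add hAP w hw T T' h h', fun T h h1 => ?_,
    fun T h h1 => ?_, fun T T' h h' h1 he hd => ?_, fun d hd => W2.exists_pt w hw d hd⟩
  · by_cases hx : xc T = 0
    · rw [W2.eta_of_zero T hx, one_pow]
    · have := W2.eta_quad T h hx
      linear_combination (eta T - 1) * this
  · exact (xc_eq_zero_iff T).1 ((W2.eta_one_iff T h).1 h1)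
  · have hx := hxne T h h1
    exact ⟨W2.Dl_cube T h hx, (W2.trans hAP w hw T h hx).2.2⟩
  · exact W2.uniq T T' h h' (hxne T h h1) (hxne T' h' (by rw [← he]; exact h1)) he hd

end F8
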